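import Pool.Agent.KS6_29.BM.Main

/-!
# Arbitrarily many non-isomorphic binary matroids with the same deck

For every prime `n` and every `k` with `6 n k + 2 < 2 ^ n` there are `k + 1` pairwise non-isomorphic
binary matroids on one set of `4 (2 ^ n - 1)` elements, none of them free or a circuit, which have
pairwise isomorphic single-element deletions `M_i \ e ≅ M_j \ e` for every element `e`.
-/

set_option autoImplicit false

open Matroid

namespace Pool.Agent.Results.MP_160273_co.ManyWithSameDeck

open Pool.Agent.KS6_29.BM Pool.Agent.Helper998.VecMatroid Pool.Agent.Helper998.DualRep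

/-- `M` is representable over `GF(2)`. -/
def Binary {E : Type} (M : Matroid E) : Prop :=
  ∃ (m : ℕ) (φ : E → (Fin m → ZMod 2)), ∀ I ⊆ M.E, (M.Indep I ↔ LinearIndepOn (ZMod 2) φ I)

/-- The whole ground set is a circuit. -/
def IsCircuitMatroid {E : Type} (M : Matroid E) : Prop :=
  ¬ M.Indep M.E ∧ ∀ e ∈ M.E, M.Indep (M.E \ {e})

/-- Matroids on `E` that are isomorphic (by a bijection of `E`). -/
def Iso {E : Type} (M N : Matroid E) : Prop := ∃ f : E ≃ E, M.mapEquiv f = N

/-- A family of matroids with ground set `E` that are binary, not free, not circuits, pairwise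
non-isomorphic, and have pairwise isomorphic deletions of every element `e`, by bijections of
`E` that fix `e` (that is, bijections of `E \ {e}`). -/
structure SameDeckFamily {E ι : Type} (M : ι → Matroid E) : Prop where
  ground : ∀ i, (M i).E = Set.univ
  binary : ∀ i, Binary (M i)
  not_circuit : ∀ i, ¬ IsCircuitMatroid (M i)
  not_free : ∀ i, ¬ (M i).Indep (M i).E
  deck : ∀ i j, ∀ e : E, ∃ f : E ≃ E, f e = e ∧ (M i ＼ {e}).mapEquiv f = M j ＼ {e}
  not_iso : ∀ i j, i ≠ j → ¬ Iso (M i) (M j)

theorem family (n k : ℕ) (hn : n.Prime) (hk : 6 * n * k + 2 < 2 ^ n) :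
    ∃ (E : Type) (_ : Finite E) (M : Fin (k + 1) → Matroid E),
      Nat.card E = 4 * (2 ^ n - 1) ∧ SameDeckFamily M := by
  classical
  haveI : Fact (Nat.Prime 2) := ⟨Nat.prime_two⟩
  haveI : NeZero n := ⟨hn.ne_zero⟩
  let K := GaloisField 2 n
  have hK : Module.finrank (ZMod 2) K = n := GaloisField.finrank 2 hn.ne_zero
  haveI : FiniteDimensional (ZMod 2) K := Module.finite_of_finrank_pos (by rw [hK]; exact hn.pos)
  haveI : Finite K := Module.finite_of_finite (ZMod 2)
  have hcardK : Nat.card K = 2 ^ n := GaloisField.card 2 n hn.ne_zero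
  obtain ⟨ψ, hψ⟩ := exists_psi (K := K)
  obtain ⟨a, ha⟩ := exists_params (K := K) hn hK k (by rw [hcardK]; exact hk)
  let X := Fin n → ZMod 2
  let E := Fin 4 × {x : X // x ≠ 0}
  have a0 : ∀ i : Fin (k + 1), a i ≠ 0 := fun i => (ha i (by omega)).1
  have a1 : ∀ i : Fin (k + 1), a i ≠ 1 := fun i => (ha i (by omega)).2.1
  let Θ : Fin (k + 1) → (K ≃ₗ[ZMod 2] X) := fun i => theta hn hK hψ (a0 i) (a1 i)
  let B : Fin (k + 1) → (X →ₗ[ZMod 2] X) := fun i => Bop (Θ i) (a i)
  have hgood : ∀ i, Good (eps n) (B i) := fun i => good (Θ i) (a0 i) (a1 i)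
  let M : Fin (k + 1) → Matroid E := fun i => (vecMatroid (ZMod 2) (v (B i)))✶
  have hE : ∀ i, (M i).E = Set.univ := fun i => rfl
  have hcardX : Nat.card X = 2 ^ n := by
    rw [Nat.card_eq_fintype_card]
    simp [X, ZMod.card]
  refine ⟨E, inferInstance, M, ?_, hE, ?_, ?_, ?_, ?_, ?_⟩
  · -- cardinality
    rw [Nat.card_prod, Nat.card_eq_fintype_card, Fintype.card_fin]
    congr 1
    rw [Nat.card_eq_fintype_card, Fintype.card_subtype_compl]
    rw [← Nat.card_eq_fintype_card, hcardX]
    simp
  · intro i
    obtain ⟨m, φ, h⟩ := dual_rep (F := ZMod 2) (v (B i))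
    exact ⟨m, φ, fun I _ => h I⟩
  · rintro i ⟨-, h⟩
    have hε := eps_ne n
    have h1 := h (e0 hε) (Set.mem_univ _)
    have h1' : (vecMatroid (ZMod 2) (v (B i)))✶.Indep (Set.univ \ {e0 hε}) := h1
    rw [dual_indep_iff _ v_span, ← Set.compl_eq_univ_sdiff, compl_compl,
      Set.image_singleton] at h1'
    have h2 : v (B i) (1, ⟨eps n, hε⟩) ∈ Submodule.span (ZMod 2) {v (B i) (e0 hε)} := by
      rw [h1']
      exact Submodule.mem_top
    rw [Submodule.mem_span_singleton] at h2
    obtain ⟨c, hc⟩ := h2
    have h3 : c • (0 : X) = eps n := congrArg Prod.snd hc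
    rw [smul_zero] at h3
    exact hε h3.symm
  · intro i h
    have hε := eps_ne n
    have h' : (vecMatroid (ZMod 2) (v (B i)))✶.Indep Set.univ := h
    rw [dual_indep_iff _ v_span, Set.compl_univ, Set.image_empty, Submodule.span_empty] at h'
    have h2 : v (B i) (e0 hε) ∈ (⊥ : Submodule (ZMod 2) (X × X)) := by
      rw [h']
      exact Submodule.mem_top
    exact v_ne (e0 hε) h2
  · intro i j e
    obtain ⟨f, hfe, hf⟩ := deck (hgood i) (hgood j)
      (Bdiff hn hK hψ (a0 i) (a1 i) (a0 j) (a1 j)) e
    refine ⟨f, hfe, ?_⟩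
    have hset : ∀ I : Set E, e ∉ f.symm '' I ↔ e ∉ I := by
      intro I
      rw [not_iff_not]
      constructor
      · rintro ⟨x, hx, hxe⟩
        rw [Equiv.symm_apply_eq, hfe] at hxe
        rwa [← hxe]
      · intro h
        exact ⟨e, h, by rw [Equiv.symm_apply_eq, hfe]⟩
    apply Matroid.ext_indep
    · rw [Matroid.mapEquiv_ground_eq, Matroid.delete_ground, Matroid.delete_ground, hE, hE,
        ← Set.compl_eq_univ_sdiff, Set.image_compl_eq f.bijective, Set.image_singleton, hfe]
    · intro I _
      rw [Matroid.mapEquiv_indep_iff, Matroid.delete_indep_iff, Matroid.delete_indep_iff,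
        Set.disjoint_singleton_right, Set.disjoint_singleton_right, hset]
      refine and_congr_left fun heI => ?_
      have := hf (f.symm '' I) ((hset I).2 heI)
      rw [Set.image_image] at this
      simpa using this
  · have key : ∀ i j : Fin (k + 1), i < j → ¬ Iso (M i) (M j) := by
      rintro i j hij ⟨f, hf⟩
      have hcard : 12 < Nat.card X := by
        rw [hcardX]
        have hk1 : 1 ≤ k := by
          have := j.2
          have : (i : ℕ) < j := hij
          omega
        have h6 : 6 * n * 1 ≤ 6 * n * k := Nat.mul_le_mul_left _ hk1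
        have h2 := hn.two_le
        omega
      apply (ha j (by omega)).2.2 i hij
      refine bad_of_iso hcard (Θ i) (Θ j) (a0 i) (a1 i) (a0 j) (a1 j) f fun I => ?_
      have h1 : ((M i).mapEquiv f).Indep (f '' I) ↔ (M j).Indep (f '' I) := by rw [hf]
      rw [Matroid.mapEquiv_indep_iff, Set.image_image] at h1
      simpa using h1
    intro i j hij
    rcases lt_or_gt_of_ne hij with h | h
    · exact key i j h
    · rintro ⟨f, hf⟩
      apply key j i h
      refine ⟨f.symm, ?_⟩
      rw [← hf]
      apply Matroid.ext_indep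
      · rw [Matroid.mapEquiv_ground_eq, Matroid.mapEquiv_ground_eq, Set.image_image]
        simp
      · intro I _
        rw [Matroid.mapEquiv_indep_iff, Matroid.mapEquiv_indep_iff, Set.image_image]
        simp

/-- **Many binary matroids with the same deck.** -/
theorem result :
    (∀ n k : ℕ, n.Prime → 6 * n * k + 2 < 2 ^ n →
      ∃ (E : Type) (_ : Finite E) (M : Fin (k + 1) → Matroid E),
        Nat.card E = 4 * (2 ^ n - 1) ∧ SameDeckFamily M) ∧
    ∀ k : ℕ, ∃ (E : Type) (_ : Finite E) (M : Fin k → Matroid E), SameDeckFamily M := by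
  refine ⟨family, fun k => ?_⟩
  obtain ⟨n, hn1, hn⟩ := Nat.exists_infinite_primes (6 * k + 10)
  have hgrow : 6 * n * k + 2 < 2 ^ n := by
    have h1 : 6 * n * k + 2 ≤ n * n := by nlinarith
    have h2 : ∀ m : ℕ, 10 ≤ m → m * m < 2 ^ m := by
      intro m hm
      induction m, hm using Nat.le_induction with
      | base => norm_num
      | succ m hm ih => rw [pow_succ]; nlinarith
    exact lt_of_le_of_lt h1 (h2 n (by omega))
  obtain ⟨E, hE, M, -, hM⟩ := family n k hn hgrow
  refine ⟨E, hE, fun i => M (Fin.castSucc i), ?_⟩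
  exact
    { ground := fun i => hM.ground _
      binary := fun i => hM.binary _
      not_circuit := fun i => hM.not_circuit _
      not_free := fun i => hM.not_free _
      deck := fun i j e => hM.deck _ _ e
      not_iso := fun i j hij => hM.not_iso _ _ fun h => hij (Fin.castSucc_injective _ h) }

end Pool.Agent.Results.MP_160273_co.ManyWithSameDeck
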